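import Mathlib

set_option autoImplicit false

open Set Cardinal

namespace Pool.Agent.Results.MP_8a899a_lc.Superatomic

universe u

variable {B : Type u} [BooleanAlgebra B]

/-- A Morley-type rank of `a`, computed with the elements of `S`. -/
noncomputable def Rk (S : Set B) (α : Ordinal.{u}) : B → Prop :=
  WellFounded.fix (C := fun _ => B → Prop) Ordinal.lt_wf
    (fun α ih a => a ≠ ⊥ ∧ ∀ β (h : β < α), ∃ c : ℕ → B,
      (∀ n, c n ∈ S ∧ c n ≤ a ∧ ih β h (c n)) ∧ Pairwise (fun i j => Disjoint (c i) (c j))) α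

theorem rk_iff {S : Set B} {α : Ordinal.{u}} {a : B} : Rk S α a ↔ a ≠ ⊥ ∧ ∀ β < α, ∃ c : ℕ → B,
      (∀ n, c n ∈ S ∧ c n ≤ a ∧ Rk S β (c n)) ∧ Pairwise (fun i j => Disjoint (c i) (c j)) := by
  unfold Rk
  rw [WellFounded.fix_eq]

theorem rk_ne {S : Set B} {α : Ordinal.{u}} {a : B} (h : Rk S α a) : a ≠ ⊥ := (rk_iff.1 h).1

theorem rk_zero {S : Set B} {a : B} (h : a ≠ ⊥) : Rk S 0 a :=
  rk_iff.2 ⟨h, fun β hβ => absurd hβ (by simp)⟩

theorem rk_ord {S : Set B} {α β : Ordinal.{u}} {a : B} (hβ : β ≤ α) (h : Rk S α a) :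
    Rk S β a :=
  rk_iff.2 ⟨rk_ne h, fun γ hγ => (rk_iff.1 h).2 γ (hγ.trans_le hβ)⟩

theorem rk_le {S : Set B} {α : Ordinal.{u}} {a b : B} (hab : a ≤ b) (h : Rk S α a) :
    Rk S α b := by
  refine rk_iff.2 ⟨fun hb => rk_ne h (le_bot_iff.1 (hb ▸ hab)), fun γ hγ => ?_⟩
  obtain ⟨c, hc, hd⟩ := (rk_iff.1 h).2 γ hγ
  exact ⟨c, fun n => ⟨(hc n).1, (hc n).2.1.trans hab, (hc n).2.2⟩, hd⟩

theorem rk_local {S T : Set B} (α : Ordinal.{u}) : ∀ {a : B}, (∀ x ≤ a, x ∈ T → x ∈ S) →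
    Rk T α a → Rk S α a := by
  induction α using WellFoundedLT.induction with
  | _ α ih =>
  intro a hl h
  refine rk_iff.2 ⟨rk_ne h, fun γ hγ => ?_⟩
  obtain ⟨c, hc, hd⟩ := (rk_iff.1 h).2 γ hγ
  refine ⟨c, fun n => ⟨hl _ (hc n).2.1 (hc n).1, (hc n).2.1, ?_⟩, hd⟩
  exact ih γ hγ (fun x hx => hl x (hx.trans (hc n).2.1)) (hc n).2.2

theorem rk_univ {S : Set B} {α : Ordinal.{u}} {a : B} (h : Rk S α a) : Rk univ α a :=
  rk_local α (fun _ _ _ => mem_univ _) h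

theorem sub_family {S : Set B} (hS : ∀ x ∈ S, ∀ y ∈ S, x ⊓ y ∈ S) {P : B → Prop} {x : B}
    (hx : x ∈ S) {c : ℕ → B} (hc : ∀ n, c n ∈ S) (hd : Pairwise (fun i j => Disjoint (c i) (c j)))
    (hi : {n | P (c n ⊓ x)}.Infinite) :
    ∃ d : ℕ → B, (∀ n, d n ∈ S ∧ d n ≤ x ∧ P (d n)) ∧
      Pairwise (fun i j => Disjoint (d i) (d j)) := by
  let e := hi.natEmbedding
  refine ⟨fun n => c (e n) ⊓ x, fun n => ⟨hS _ (hc _) _ hx, inf_le_right, (e n).2⟩, ?_⟩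
  intro i j hij
  have : (e i : ℕ) ≠ e j := fun h => hij (e.injective (Subtype.ext h))
  exact (hd this).mono inf_le_left inf_le_left

theorem rk_sup {S : Set B} (hS : ∀ x ∈ S, ∀ y ∈ S, x ⊓ y ∈ S) (α : Ordinal.{u}) :
    ∀ x ∈ S, ∀ y ∈ S, Rk S α (x ⊔ y) → Rk S α x ∨ Rk S α y := by
  induction α using WellFoundedLT.induction with
  | _ α ih =>
  intro x hx y hy h
  by_cases hx0 : x = ⊥
  · right; simpa [hx0] using h
  by_cases hy0 : y = ⊥
  · left; simpa [hy0] using h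
  by_contra hcon
  rw [not_or, rk_iff, rk_iff] at hcon
  obtain ⟨h1, h2⟩ := hcon
  have h1' : ∃ β < α, ¬ ∃ c : ℕ → B, (∀ n, c n ∈ S ∧ c n ≤ x ∧ Rk S β (c n)) ∧
      Pairwise (fun i j => Disjoint (c i) (c j)) := by
    by_contra hh
    exact h1 ⟨hx0, fun β hβ => by_contra fun h' => hh ⟨β, hβ, h'⟩⟩
  have h2' : ∃ β < α, ¬ ∃ c : ℕ → B, (∀ n, c n ∈ S ∧ c n ≤ y ∧ Rk S β (c n)) ∧
      Pairwise (fun i j => Disjoint (c i) (c j)) := by
    by_contra hh
    exact h2 ⟨hy0, fun β hβ => by_contra fun h' => hh ⟨β, hβ, h'⟩⟩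
  obtain ⟨β1, hβ1, n1⟩ := h1'
  obtain ⟨β2, hβ2, n2⟩ := h2'
  obtain ⟨c, hc, hd⟩ := (rk_iff.1 h).2 (max β1 β2) (max_lt hβ1 hβ2)
  have key : ∀ n, Rk S β1 (c n ⊓ x) ∨ Rk S β2 (c n ⊓ y) := by
    intro n
    have e : c n = c n ⊓ x ⊔ c n ⊓ y := by
      rw [← inf_sup_left]; exact (inf_eq_left.2 (hc n).2.1).symm
    have := ih _ (max_lt hβ1 hβ2) _ (hS _ (hc n).1 _ hx) _ (hS _ (hc n).1 _ hy)
      (e ▸ (hc n).2.2)
    exact this.imp (rk_ord (le_max_left _ _)) (rk_ord (le_max_right _ _))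
  have hu : ({n | Rk S β1 (c n ⊓ x)} ∪ {n | Rk S β2 (c n ⊓ y)}).Infinite := by
    have : {n | Rk S β1 (c n ⊓ x)} ∪ {n | Rk S β2 (c n ⊓ y)} = Set.univ :=
      eq_univ_of_forall fun n => key n
    rw [this]; exact infinite_univ
  rcases infinite_union.1 hu with hi | hi
  · exact n1 (sub_family hS hx (fun n => (hc n).1) hd hi)
  · exact n2 (sub_family hS hy (fun n => (hc n).1) hd hi)

/-- `f` is an isomorphism of `B` onto `S`. -/
structure Emb (f : B → B) (S : Set B) : Prop where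
  le : ∀ x y, f x ≤ f y ↔ x ≤ y
  bot : f ⊥ = ⊥
  disj : ∀ x y, Disjoint (f x) (f y) ↔ Disjoint x y
  mem : ∀ x, f x ∈ S
  surj : ∀ y ∈ S, ∃ x, f x = y

theorem Emb.ne {f : B → B} {S : Set B} (hf : Emb f S) (x : B) : f x ≠ ⊥ ↔ x ≠ ⊥ := by
  have := hf.le x ⊥
  rw [hf.bot, le_bot_iff, le_bot_iff] at this
  exact not_congr this

theorem Emb.rk {f : B → B} {S : Set B} (hf : Emb f S) (α : Ordinal.{u}) :
    ∀ b, Rk S α (f b) ↔ Rk univ α b := by
  induction α using WellFoundedLT.induction with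
  | _ α ih =>
  intro b
  rw [rk_iff, rk_iff, hf.ne]
  refine and_congr_right fun _ => forall₂_congr fun β hβ => ⟨?_, ?_⟩
  · rintro ⟨c, hc, hd⟩
    choose d hdc using fun n => hf.surj _ (hc n).1
    refine ⟨d, fun n => ⟨mem_univ _, ?_, ?_⟩, fun i j hij => ?_⟩
    · rw [← hf.le, hdc]; exact (hc n).2.1
    · rw [← ih β hβ, hdc]; exact (hc n).2.2
    · show Disjoint (d i) (d j)
      rw [← hf.disj, hdc, hdc]; exact hd hij
  · rintro ⟨c, hc, hd⟩
    exact ⟨fun n => f (c n), fun n => ⟨hf.mem _, (hf.le _ _).2 (hc n).2.1,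
      (ih β hβ _).2 (hc n).2.2⟩, fun i j hij => (hf.disj _ _).2 (hd hij)⟩

theorem emb_of_iso (A : BooleanSubalgebra B) (e : A ≃o B) : ∃ f : B → B, Emb f A := by
  refine ⟨fun b => (e.symm b : B), ?_, ?_, ?_, fun x => (e.symm x).2, ?_⟩
  · intro x y
    exact (Subtype.coe_le_coe).trans e.symm.le_iff_le
  · simp
  · intro x y
    rw [disjoint_iff, disjoint_iff, ← BooleanSubalgebra.val_inf, ← e.symm.map_inf]
    refine ⟨fun h => e.symm.injective ?_, fun h => by simp [h]⟩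
    rw [e.symm.map_bot]; exact Subtype.ext h
  · intro y hy
    exact ⟨e ⟨y, hy⟩, by simp⟩

/-- An ideal, as a set. -/
structure Idl (J : Set B) : Prop where
  bot : ⊥ ∈ J
  low : ∀ x y, x ≤ y → y ∈ J → x ∈ J
  sup : ∀ x ∈ J, ∀ y ∈ J, x ⊔ y ∈ J

/-- Elements whose trace on `a` is in `J` or has complement in `J`. -/
def sa {J : Set B} (hJ : Idl J) (a : B) : BooleanSubalgebra B where
  carrier := {x | x ⊓ a ∈ J ∨ xᶜ ⊓ a ∈ J}
  supClosed' := by
    intro x hx y hy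
    rcases hx with hx | hx
    · rcases hy with hy | hy
      · left; rw [inf_sup_right]; exact hJ.sup _ hx _ hy
      · right; exact hJ.low _ _ (inf_le_inf_right _ (compl_le_compl le_sup_right)) hy
    · right; exact hJ.low _ _ (inf_le_inf_right _ (compl_le_compl le_sup_left)) hx
  infClosed' := by
    intro x hx y hy
    rcases hx with hx | hx
    · left; exact hJ.low _ _ (inf_le_inf_right _ inf_le_left) hx
    · rcases hy with hy | hy
      · left; exact hJ.low _ _ (inf_le_inf_right _ inf_le_right) hy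
      · right; rw [compl_inf, inf_sup_right]; exact hJ.sup _ hx _ hy
  compl_mem' := by
    intro x hx
    rcases hx with hx | hx
    · right; rwa [compl_compl]
    · left; exact hx
  bot_mem' := by left; simpa using hJ.bot

theorem mem_sa {J : Set B} (hJ : Idl J) (a x : B) :
    x ∈ (sa hJ a : Set B) ↔ x ⊓ a ∈ J ∨ xᶜ ⊓ a ∈ J := Iff.rfl

theorem sa_of_mem {J : Set B} (hJ : Idl J) (a : B) {x : B} (hx : x ∈ J) :
    x ∈ (sa hJ a : Set B) := Or.inl (hJ.low _ _ inf_le_left hx)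

theorem sa_of_le {J : Set B} (hJ : Idl J) (a : B) {x : B} (hx : x ≤ aᶜ) :
    x ∈ (sa hJ a : Set B) := by
  left
  have : x ⊓ a = ⊥ := le_bot_iff.1 ((inf_le_inf_right _ hx).trans (by simp))
  rw [this]; exact hJ.bot

theorem sa_self {J : Set B} (hJ : Idl J) (a : B) : a ∈ (sa hJ a : Set B) := by
  right; simpa using hJ.bot

theorem sa_inf {J : Set B} (hJ : Idl J) (a : B) :
    ∀ x ∈ (sa hJ a : Set B), ∀ y ∈ (sa hJ a : Set B), x ⊓ y ∈ (sa hJ a : Set B) :=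
  fun _ hx _ hy => BooleanSubalgebra.inf_mem hx hy

theorem sa_top {J : Set B} (hJ : Idl J) (a : B) (α : Ordinal.{u})
    (h : ∀ s ∈ J, ¬ Rk (sa hJ a : Set B) α s) : ¬ Rk (sa hJ a : Set B) (α + 1) a := by
  intro hr
  obtain ⟨c, hc, hd⟩ := (rk_iff.1 hr).2 α (by simp)
  have h1 : ∀ n, c n ∉ J := fun n hn => h _ hn (hc n).2.2
  rcases (hc 1).1 with h2 | h2
  · rw [inf_eq_left.2 (hc 1).2.1] at h2; exact h1 1 h2
  · refine h1 0 (hJ.low _ _ (le_inf ?_ (hc 0).2.1) h2)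
    exact le_compl_iff_disjoint_right.2 (hd (show (0 : ℕ) ≠ 1 by norm_num))

/-- The scattered elements. -/
def Sc (B : Type u) [BooleanAlgebra B] : Set B := {a | ∃ α : Ordinal.{u}, ¬ Rk univ α a}

theorem idl_sc : Idl (Sc B) where
  bot := ⟨0, fun h => rk_ne h rfl⟩
  low := fun _ _ hxy ⟨α, hα⟩ => ⟨α, fun h => hα (rk_le hxy h)⟩
  sup := by
    rintro x ⟨α, hα⟩ y ⟨β, hβ⟩
    refine ⟨max α β, fun h => ?_⟩
    rcases rk_sup (S := univ) (fun _ _ _ _ => mem_univ _) _ x (mem_univ _) y (mem_univ _) h with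
      h | h
    · exact hα (rk_ord (le_max_left _ _) h)
    · exact hβ (rk_ord (le_max_right _ _) h)

theorem idl_bot : Idl ({⊥} : Set B) where
  bot := rfl
  low := fun x y hxy hy => by
    rw [mem_singleton_iff] at hy ⊢; exact le_bot_iff.1 (hy ▸ hxy)
  sup := fun x hx y hy => by
    rw [mem_singleton_iff] at hx hy ⊢; simp [hx, hy]

theorem exists_H : ∃ H : Ordinal.{u}, (∀ s ∈ Sc B, ¬ Rk univ H s) ∧
    ∀ β < H, ∃ s ∈ Sc B, Rk univ β s := by
  have hne : {α : Ordinal.{u} | ∀ s ∈ Sc B, ¬ Rk univ α s}.Nonempty := by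
    have : ∀ s : Sc B, ∃ α : Ordinal.{u}, ¬ Rk univ α (s : B) := fun s => s.2
    choose g hg using this
    refine ⟨iSup g, fun s hs h => hg ⟨s, hs⟩ (rk_ord ?_ h)⟩
    exact Ordinal.le_iSup g ⟨s, hs⟩
  refine ⟨sInf _, csInf_mem hne, fun β hβ => ?_⟩
  have := notMem_of_lt_csInf' hβ
  by_contra hh
  exact this fun s hs h => hh ⟨s, hs, h⟩

theorem exists_max {s : B} (hs : s ∈ Sc B) (h0 : s ≠ ⊥) :
    ∃ γ : Ordinal.{u}, Rk univ γ s ∧ ∀ β, Rk univ β s → β ≤ γ := by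
  have hne : {α : Ordinal.{u} | ¬ Rk univ α s}.Nonempty := hs
  have h1 : ¬ Rk univ (sInf {α : Ordinal.{u} | ¬ Rk univ α s}) s := csInf_mem hne
  have h2 : ∃ β < sInf {α : Ordinal.{u} | ¬ Rk univ α s}, ¬ ∃ c : ℕ → B,
      (∀ n, c n ∈ (univ : Set B) ∧ c n ≤ s ∧ Rk univ β (c n)) ∧
      Pairwise (fun i j => Disjoint (c i) (c j)) := by
    by_contra hh
    exact h1 (rk_iff.2 ⟨h0, fun β hβ => by_contra fun h' => hh ⟨β, hβ, h'⟩⟩)
  obtain ⟨γ, hγ, hn⟩ := h2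
  refine ⟨γ, by_contra fun h => notMem_of_lt_csInf' hγ h, fun β hβ => ?_⟩
  by_contra hlt
  exact hn ((rk_iff.1 hβ).2 γ (not_le.1 hlt))

/-- Elements with no scattered element of rank at least `β` below them. -/
def M (β : Ordinal.{u}) : Set B := {a | ∀ c ≤ a, c ∈ Sc B → ¬ Rk univ β c}

/-- Elements with no infinite disjoint family of such elements below them. -/
def N (β : Ordinal.{u}) : Set B := {a | ¬ ∃ c : ℕ → B,
  (∀ n, c n ∈ Sc B ∧ c n ≤ a ∧ Rk univ β (c n)) ∧ Pairwise (fun i j => Disjoint (c i) (c j))}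

theorem idl_M (β : Ordinal.{u}) : Idl (M β : Set B) where
  bot := fun c hc _ h => rk_ne h (le_bot_iff.1 hc)
  low := fun _ _ hxy hy c hc => hy c (hc.trans hxy)
  sup := by
    intro x hx y hy c hc hs h
    have e : c = c ⊓ x ⊔ c ⊓ y := by
      rw [← inf_sup_left]; exact (inf_eq_left.2 hc).symm
    rw [e] at h
    rcases rk_sup (S := univ) (fun _ _ _ _ => mem_univ _) _ _ (mem_univ _) _ (mem_univ _) h with
      h | h
    · exact hx _ inf_le_right (idl_sc.low _ _ inf_le_left hs) h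
    · exact hy _ inf_le_right (idl_sc.low _ _ inf_le_left hs) h

theorem N_mono {β γ : Ordinal.{u}} (h : β ≤ γ) : (N β : Set B) ⊆ N γ := by
  rintro a ha ⟨c, hc, hd⟩
  exact ha ⟨c, fun n => ⟨(hc n).1, (hc n).2.1, rk_ord h (hc n).2.2⟩, hd⟩

theorem N_decomp {β : Ordinal.{u}} {a : B} (ha : a ∈ N β) :
    ∃ s ∈ Sc B, ∃ m ∈ M β, a = s ⊔ m := by
  by_contra hh
  have h1 : ∀ s : {s : B // s ∈ Sc B ∧ s ≤ a}, ∃ c, c ≤ a ⊓ (s : B)ᶜ ∧ c ∈ Sc B ∧
      Rk univ β c := by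
    intro s
    by_contra h2
    refine hh ⟨s, s.2.1, a ⊓ (s : B)ᶜ, fun c hc hs h => h2 ⟨c, hc, hs, h⟩, ?_⟩
    rw [sup_inf_left, sup_compl_eq_top, inf_top_eq, sup_eq_right.2 s.2.2]
  choose F hF using h1
  let nx : {s : B // s ∈ Sc B ∧ s ≤ a} → {s : B // s ∈ Sc B ∧ s ≤ a} := fun s =>
    ⟨s ⊔ F s, idl_sc.sup _ s.2.1 _ (hF s).2.1, sup_le s.2.2 ((hF s).1.trans inf_le_left)⟩
  let s : ℕ → {s : B // s ∈ Sc B ∧ s ≤ a} := fun n => nx^[n] ⟨⊥, idl_sc.bot, bot_le⟩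
  have hs : ∀ n, s (n + 1) = nx (s n) := fun n => Function.iterate_succ_apply' _ _ _
  have hm : Monotone fun n => (s n : B) := monotone_nat_of_le_succ fun n => by
    rw [hs]; exact le_sup_left
  refine ha ⟨fun n => F (s n), fun n => ⟨(hF _).2.1, (hF _).1.trans inf_le_left, (hF _).2.2⟩, ?_⟩
  have : ∀ i j, i < j → Disjoint (F (s i)) (F (s j)) := by
    intro i j hij
    have h1 : F (s i) ≤ s j := by
      refine le_trans ?_ (hm (show i + 1 ≤ j from hij))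
      show F (s i) ≤ (s (i + 1) : B)
      rw [hs]; exact le_sup_right
    exact disjoint_compl_right.mono h1 ((hF _).1.trans inf_le_right)
  intro i j hij
  rcases lt_or_gt_of_ne hij with h | h
  · exact this i j h
  · exact (this j i h).symm

theorem big_or (hinf : ℵ₀ ≤ #B) (a : B) : #B ≤ #(Iic a) ∨ #B ≤ #(Iic aᶜ) := by
  by_contra hh
  rw [not_or, not_le, not_le] at hh
  have h1 : #B ≤ #(Iic a × Iic aᶜ) := by
    refine mk_le_of_injective
      (f := fun x => (⟨x ⊓ a, inf_le_right⟩, ⟨x ⊓ aᶜ, inf_le_right⟩)) fun x y hxy => ?_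
    simp only [Prod.mk.injEq, Subtype.mk.injEq] at hxy
    rw [← sup_inf_inf_compl (x := x) (y := a), ← sup_inf_inf_compl (x := y) (y := a),
      hxy.1, hxy.2]
  rw [mk_prod, lift_id, lift_id] at h1
  exact absurd (mul_lt_of_lt hinf hh.1 hh.2) (not_lt.2 h1)

section main

variable (hinf : ℵ₀ ≤ #B) (hstar : ∀ A : BooleanSubalgebra B, #A = #B → Nonempty (A ≃o B))
  (htop : (⊤ : B) ∉ Sc B)

include hstar in
theorem get_emb (A : BooleanSubalgebra B) {S : Set B} (hS : S ⊆ A) (h : #B ≤ #S) :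
    ∃ f : B → B, Emb f A := by
  obtain ⟨e⟩ := hstar A (le_antisymm (mk_set_le _) (h.trans (mk_le_mk_of_subset hS)))
  exact emb_of_iso A e

include hstar htop in
theorem sc_small : #(Sc B) < #B := by
  by_contra hh
  obtain ⟨H, hH, -⟩ := exists_H (B := B)
  obtain ⟨f, hf⟩ := get_emb hstar (sa idl_sc ⊤) (fun x hx => sa_of_mem idl_sc ⊤ hx) (not_lt.1 hh)
  have h1 := sa_top idl_sc (⊤ : B) H (fun s hs h => hH s hs (rk_univ h))
  refine htop ⟨H + 1, fun h => h1 (rk_le le_top ((hf.rk _ _).2 h))⟩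

include hstar in
theorem star {H : Ordinal.{u}} (hH : ∀ s ∈ Sc B, ¬ Rk univ H s) {a : B} (h0 : a ≠ ⊥)
    (ha : #B ≤ #(Iic aᶜ)) : ∃ β < H, a ∈ N β := by
  obtain ⟨f, hf⟩ := get_emb hstar (sa idl_sc a) (fun x hx => sa_of_le idl_sc a hx) ha
  obtain ⟨b, hb⟩ := hf.surj a (sa_self idl_sc a)
  have h1 := sa_top idl_sc a H (fun s hs h => hH s hs (rk_univ h))
  have h2 : b ∈ Sc B := ⟨H + 1, fun h => h1 (hb ▸ (hf.rk _ _).2 h)⟩
  have h3 : ¬ Rk (sa idl_sc a : Set B) H a := fun h => hH b h2 ((hf.rk _ _).1 (hb ▸ h))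
  by_contra hh
  refine h3 (rk_iff.2 ⟨h0, fun β hβ => ?_⟩)
  have : a ∉ N β := fun h => hh ⟨β, hβ, h⟩
  obtain ⟨c, hc, hd⟩ := not_not.1 this
  refine ⟨c, fun n => ⟨sa_of_mem idl_sc a (hc n).1, (hc n).2.1, ?_⟩, hd⟩
  exact rk_local β (fun x hx _ => sa_of_mem idl_sc a (idl_sc.low _ _ hx (hc n).1)) (hc n).2.2

include hinf in
theorem small_piece {c : B} (hc : #B ≤ #(Iic c)) : ∃ a ≤ c, a ≠ ⊥ ∧ #B ≤ #(Iic aᶜ) := by
  have hi : (Iic c).Infinite := by
    rw [← infinite_coe_iff, ← aleph0_le_mk_iff]; exact hinf.trans hc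
  obtain ⟨b, hb, hb2⟩ := hi.exists_notMem_finite (toFinite ({⊥, c} : Set B))
  simp only [mem_insert_iff, mem_singleton_iff, not_or] at hb2
  rcases big_or hinf b with h | h
  · refine ⟨c ⊓ bᶜ, inf_le_left, fun h0 => hb2.2 (le_antisymm hb ?_), ?_⟩
    · have : Disjoint c bᶜ := disjoint_iff.2 h0
      exact disjoint_compl_right_iff.1 this
    · refine h.trans (mk_le_mk_of_subset (Iic_subset_Iic.2 ?_))
      rw [compl_inf, compl_compl]; exact le_sup_right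
  · exact ⟨b, hb, hb2.1, h⟩

theorem atom_rk (a : B) : ¬ Rk (sa idl_bot a : Set B) 1 a := by
  have := sa_top idl_bot a 0 (fun s hs h => rk_ne h hs)
  simpa using this

include hinf hstar htop in
theorem two {β : Ordinal.{u}} {c : B} (hc : c ∈ Sc B) (hr : Rk univ β c) :
    ∃ c1 ∈ Sc B, ∃ c2 ∈ Sc B, Rk univ β c1 ∧ Rk univ β c2 ∧ Disjoint c1 c2 := by
  have hbig : #B ≤ #(Iic cᶜ) := by
    refine (big_or hinf c).resolve_left (not_le.2 ?_)
    exact (mk_le_mk_of_subset fun x hx => idl_sc.low _ _ hx hc).trans_lt (sc_small hstar htop)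
  obtain ⟨α, hα⟩ := id hc
  by_cases hβ : β = 0
  · subst hβ
    obtain ⟨a, hac, ha0, ha⟩ := small_piece hinf hbig
    obtain ⟨f, hf⟩ := get_emb hstar (sa idl_bot a) (fun x hx => sa_of_le idl_bot a hx) ha
    obtain ⟨b1, hb1⟩ := hf.surj c (sa_of_le idl_bot a (le_compl_comm.1 hac))
    obtain ⟨b2, hb2⟩ := hf.surj a (sa_self idl_bot a)
    refine ⟨b1, ⟨α, fun h => hα (rk_univ (hb1 ▸ (hf.rk _ _).2 h))⟩, b2,
      ⟨1, fun h => atom_rk a (hb2 ▸ (hf.rk _ _).2 h)⟩, rk_zero ?_, rk_zero ?_, ?_⟩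
    · rw [← hf.ne, hb1]; exact rk_ne hr
    · rw [← hf.ne, hb2]; exact ha0
    · rw [← hf.disj, hb1, hb2]; exact disjoint_compl_right.mono_right hac
  · obtain ⟨f, hf⟩ := get_emb hstar (sa idl_bot c) (fun x hx => sa_of_le idl_bot c hx) hbig
    have h1 : Rk (sa idl_bot c : Set B) β (f c ⊓ cᶜ ⊔ f c ⊓ c) := by
      rw [sup_comm, sup_inf_inf_compl]; exact (hf.rk _ _).2 hr
    rcases rk_sup (sa_inf idl_bot c) β _ (sa_of_le idl_bot c inf_le_right) _
      (sa_inf idl_bot c _ (hf.mem c) _ (sa_self idl_bot c)) h1 with h | h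
    · refine ⟨c, hc, f c ⊓ cᶜ, ⟨α, fun h' => hα ((hf.rk _ _).1 (rk_le inf_le_left
        (rk_local α (fun x hx _ => sa_of_le idl_bot c (hx.trans inf_le_right)) h')))⟩, hr,
        rk_univ h, disjoint_compl_right.mono_right inf_le_right⟩
    · exact absurd (rk_ord (Order.one_le_iff_ne_zero.2 hβ) (rk_le inf_le_right h)) (atom_rk c)

include hinf hstar htop in
theorem M_small {β : Ordinal.{u}} {c : B} (hc : c ∈ Sc B) (hr : Rk univ β c) :
    #(M β : Set B) < #B := by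
  by_contra hh
  obtain ⟨c1, hc1, c2, hc2, hr1, hr2, hd⟩ := two hinf hstar htop hc hr
  obtain ⟨f, hf⟩ := get_emb hstar (sa (idl_M β) ⊤) (fun x hx => sa_of_mem _ ⊤ hx) (not_lt.1 hh)
  have key : ∀ x ∈ Sc B, Rk univ β x → (f x)ᶜ ∈ M β := by
    rintro x ⟨α, hα⟩ hx
    rcases (mem_sa _ _ _).1 (hf.mem x) with h | h
    · rw [inf_top_eq] at h
      refine absurd (rk_univ ((hf.rk _ _).2 hx)) (h _ le_rfl ⟨α, fun h' => hα ?_⟩)
      exact (hf.rk _ _).1 (rk_local α (fun y hy _ => sa_of_mem _ ⊤ ((idl_M β).low _ _ hy h)) h')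
    · rwa [inf_top_eq] at h
  have h1 := (idl_M β).sup _ (key c1 hc1 hr1) _ (key c2 hc2 hr2)
  rw [← compl_inf, disjoint_iff.1 ((hf.disj _ _).2 hd), compl_bot] at h1
  exact h1 c le_top hc hr

include hinf hstar htop in
theorem N_small {β : Ordinal.{u}} {c : B} (hc : c ∈ Sc B) (hr : Rk univ β c) :
    #(N β : Set B) < #B := by
  have h1 : (N β : Set B) ⊆ range (fun p : Sc B × (M β : Set B) => (p.1 : B) ⊔ p.2) := by
    intro a ha
    obtain ⟨s, hs, m, hm, e⟩ := N_decomp ha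
    exact ⟨(⟨s, hs⟩, ⟨m, hm⟩), e.symm⟩
  refine ((mk_le_mk_of_subset h1).trans mk_range_le).trans_lt ?_
  rw [mk_prod, lift_id, lift_id]
  exact mul_lt_of_lt hinf (sc_small hstar htop) (M_small hinf hstar htop hc hr)

include hinf hstar htop in
theorem not_regular (hreg : (#B).IsRegular) : False := by
  obtain ⟨H, hH, hH2⟩ := exists_H (B := B)
  have : ∀ s : {s : B // s ∈ Sc B ∧ s ≠ ⊥}, ∃ γ : Ordinal.{u}, Rk univ γ (s : B) ∧
      ∀ β, Rk univ β (s : B) → β ≤ γ := fun s => exists_max s.2.1 s.2.2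
  choose g hg using this
  let U : Set B := {⊥} ∪ ⋃ s, N (g s)
  have hU : #U < #B := by
    refine (mk_union_le _ _).trans_lt (add_lt_of_lt hinf ?_ ?_)
    · rw [mk_singleton]; exact one_lt_aleph0.trans_le hinf
    · refine (card_iUnion_lt_iff_forall_of_isRegular hreg ?_).2 fun s =>
        N_small hinf hstar htop s.2.1 (hg s).1
      exact (mk_le_mk_of_subset (s := {s : B | s ∈ Sc B ∧ s ≠ ⊥}) fun x hx => hx.1).trans_lt
        (sc_small hstar htop)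
  have hI : ∀ a : B, #B ≤ #(Iic aᶜ) → a ∈ U := by
    intro a ha
    by_cases h0 : a = ⊥
    · exact Or.inl h0
    obtain ⟨β, hβ, haN⟩ := star hstar hH h0 ha
    obtain ⟨s, hs, hr⟩ := hH2 β hβ
    exact Or.inr (mem_iUnion.2 ⟨⟨s, hs, rk_ne hr⟩, N_mono ((hg _).2 β hr) haN⟩)
  have h2 : (univ : Set B) ⊆ U ∪ compl '' U := by
    intro a _
    rcases big_or hinf a with h | h
    · exact Or.inr ⟨aᶜ, hI _ (by rwa [compl_compl]), compl_compl a⟩
    · exact Or.inl (hI a h)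
  have h3 := (mk_le_mk_of_subset h2).trans (mk_union_le _ _)
  rw [mk_univ] at h3
  exact absurd (add_lt_of_lt hinf hU (mk_image_le.trans_lt hU)) (not_lt.2 h3)

include hinf hstar htop in
theorem not_strong (hsl : ∀ x < #B, 2 ^ x < #B) : False := by
  obtain ⟨H, hH, hH2⟩ := exists_H (B := B)
  obtain ⟨a, -, h0, ha⟩ := small_piece hinf (c := (⊤ : B)) (by simp)
  obtain ⟨β, hβ, -⟩ := star hstar hH h0 ha
  obtain ⟨s, hs, hr⟩ := hH2 β hβ
  have hM := M_small hinf hstar htop hs (rk_zero (rk_ne hr))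
  let τ : B → Set (Sc B) := fun x => {s | (s : B) ≤ x}
  have hτ : ∀ x y, τ x = τ y → x ⊓ yᶜ ∈ M 0 := by
    intro x y hxy c hc hcs h
    have h1 : (⟨c, hcs⟩ : Sc B) ∈ τ x := hc.trans inf_le_left
    rw [hxy] at h1
    refine rk_ne h (le_bot_iff.1 ?_)
    rw [← inf_compl_self y]
    exact le_inf h1 (hc.trans inf_le_right)
  let r : Set (Sc B) → B := Function.invFun τ
  have hr' : ∀ x, τ (r (τ x)) = τ x := fun x => Function.invFun_eq ⟨x, rfl⟩
  have h1 : #B ≤ #(Set (Sc B) × (M 0 : Set B) × (M 0 : Set B)) := by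
    refine mk_le_of_injective (f := fun x => (τ x, ⟨x ⊓ (r (τ x))ᶜ, hτ _ _ (hr' x).symm⟩,
      ⟨r (τ x) ⊓ xᶜ, hτ _ _ (hr' x)⟩)) fun x y hxy => ?_
    simp only [Prod.mk.injEq, Subtype.mk.injEq] at hxy
    obtain ⟨e1, e2, e3⟩ := hxy
    rw [← e1] at e2 e3
    generalize r (τ x) = t at e2 e3
    have e4 : x ⊓ t = y ⊓ t := by
      have hx : ∀ z : B, z ⊓ t = t ⊓ (t ⊓ zᶜ)ᶜ := fun z => by
        rw [compl_inf, compl_compl, inf_sup_left, inf_compl_self, bot_sup_eq, inf_comm]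
      rw [hx x, hx y, e3]
    rw [← sup_inf_inf_compl (x := x) (y := t), ← sup_inf_inf_compl (x := y) (y := t), e2, e4]
  rw [mk_prod, mk_prod] at h1
  simp only [lift_id] at h1
  rw [mk_set] at h1
  exact absurd (mul_lt_of_lt hinf (hsl _ (sc_small hstar htop)) (mul_lt_of_lt hinf hM hM))
    (not_lt.2 h1)

end main

theorem split_rk (P : B → Prop) (h0 : ∀ b, P b → b ≠ ⊥)
    (hs : ∀ b, P b → ∃ b1 ≤ b, ∃ b2 ≤ b, P b1 ∧ P b2 ∧ Disjoint b1 b2) (α : Ordinal.{u}) :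
    ∀ b, P b → Rk univ α b := by
  induction α using WellFoundedLT.induction with
  | _ α ih =>
  intro b hb
  refine rk_iff.2 ⟨h0 b hb, fun β hβ => ?_⟩
  choose! L hL R hR hP using hs
  let s : ℕ → B := fun n => R^[n] b
  have hs : ∀ n, s (n + 1) = R (s n) := fun n => Function.iterate_succ_apply' _ _ _
  have hPs : ∀ n, P (s n) := by
    intro n
    induction n with
    | zero => exact hb
    | succ n ihn => rw [hs]; exact (hP _ ihn).2.1
  have hm : Antitone s := antitone_nat_of_succ_le fun n => by rw [hs]; exact hR _ (hPs n)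
  refine ⟨fun n => L (s n), fun n => ⟨mem_univ _, (hL _ (hPs n)).trans (hm (Nat.zero_le n)),
    ih β hβ _ (hP _ (hPs n)).1⟩, ?_⟩
  have : ∀ i j, i < j → Disjoint (L (s i)) (L (s j)) := by
    intro i j hij
    refine (hP _ (hPs i)).2.2.mono_right ?_
    rw [← hs]
    exact (hL _ (hPs j)).trans (hm (show i + 1 ≤ j from hij))
  intro i j hij
  rcases lt_or_gt_of_ne hij with h | h
  · exact this i j h
  · exact (this j i h).symm

theorem split_of_not_atom {C : Type*} [BooleanAlgebra C] {y : C} (h0 : y ≠ ⊥) (h : ¬ IsAtom y) :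
    ∃ z ≤ y, z ≠ ⊥ ∧ y ⊓ zᶜ ≠ ⊥ := by
  have : ∃ z < y, z ≠ ⊥ := by
    by_contra hh
    exact h ⟨h0, fun z hz => by_contra fun h' => hh ⟨z, hz, h'⟩⟩
  obtain ⟨z, hz, hz0⟩ := this
  refine ⟨z, hz.le, hz0, fun h1 => hz.not_ge ?_⟩
  exact disjoint_compl_right_iff.1 (disjoint_iff.2 h1)

theorem result (B : Type u) [BooleanAlgebra B]
    (hκ : (#B).IsRegular ∨ (#B).IsStrongLimit)
    (hstar : ∀ A : BooleanSubalgebra B, #A = #B → Nonempty (A ≃o B)) :
    (∀ (C : Type u) [BooleanAlgebra C] (f : BoundedLatticeHom B C),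
        Function.Surjective f → IsAtomic C) ∧
      ∀ A : BooleanSubalgebra B, IsAtomic A := by
  have htop : (⊤ : B) ∈ Sc B := by
    by_contra htop
    rcases hκ with h | h
    · exact not_regular h.aleph0_le hstar htop h
    · exact not_strong h.aleph0_le hstar htop (fun x hx => h.isStrongPrelimit hx)
  obtain ⟨α, hα⟩ := htop
  constructor
  · intro C _ f hf
    refine ⟨fun c => ?_⟩
    by_contra hh
    rw [not_or] at hh
    obtain ⟨hc0, hna⟩ := hh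
    refine hα (split_rk (fun x => f x ⊓ c ≠ ⊥) ?_ ?_ α ⊤ (by simpa using hc0))
    · intro b hb h; apply hb; simp [h]
    · intro b hb
      obtain ⟨z, hz, hz0, hz1⟩ := split_of_not_atom hb (fun h => hna ⟨_, h, inf_le_right⟩)
      obtain ⟨w, rfl⟩ := hf z
      refine ⟨b ⊓ w, inf_le_left, b ⊓ wᶜ, inf_le_left, ?_, ?_,
        disjoint_compl_right.mono inf_le_right inf_le_right⟩
      · show f (b ⊓ w) ⊓ c ≠ ⊥
        rw [map_inf, inf_right_comm, inf_eq_right.2 hz]; exact hz0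
      · show f (b ⊓ wᶜ) ⊓ c ≠ ⊥
        rw [map_inf, inf_right_comm, map_compl']; exact hz1
  · intro A
    refine ⟨fun c => ?_⟩
    by_contra hh
    rw [not_or] at hh
    obtain ⟨hc0, hna⟩ := hh
    have hne : ∀ y : A, y ≠ ⊥ → (y : B) ≠ ⊥ := fun y hy h => hy (Subtype.ext h)
    refine hα (rk_le le_top (split_rk (fun x => ∃ y : A, (y : B) = x ∧ y ≠ ⊥ ∧ y ≤ c) ?_ ?_ α c
      ⟨c, rfl, hc0, le_rfl⟩))
    · rintro b ⟨y, rfl, hy, -⟩; exact hne y hy
    · rintro b ⟨y, rfl, hy, hyc⟩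
      obtain ⟨z, hz, hz0, hz1⟩ := split_of_not_atom hy (fun h => hna ⟨_, h, hyc⟩)
      refine ⟨z, hz, (y ⊓ zᶜ : A), inf_le_left, ⟨z, rfl, hz0, hz.trans hyc⟩,
        ⟨y ⊓ zᶜ, rfl, hz1, inf_le_left.trans hyc⟩, ?_⟩
      exact disjoint_compl_right.mono_right inf_le_right

end Pool.Agent.Results.MP_8a899a_lc.Superatomic
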